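import Pool.Agent.Helper55.RL.Spec
import Pool.Agent.Helper35.RG.BRI

/-!
# RL: part BRP (helper10), adapted from Helper35/RG/BRI.lean (helper35)
-/

set_option autoImplicit false
set_option linter.all false

open Polynomial IsDedekindDomain NumberField
open scoped Classical IntermediateField

namespace Pool.Agent.Helper10.RL.BRP

open Pool.Agent.TH115.GD Pool.Agent.Helper55.RG Pool.Agent.Helper55.TT Pool.Agent.R939.EI
open Pool.Agent.Helper55.RL
open Pool.Agent.Helper35.RG.BRI (exists_residue)

theorem main (hUPL : S_UPL) : P_BRP := by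
  intro p hpf k' F _ _ _ _ _ _ g a hg hsep α hα _ hk' y z hz hyz hy P hP
  let φ : k'[X] →+* F⟮α⟯ := em k' F F⟮α⟯
  have hφC : ∀ c : k', φ (C c) = algebraMap k' F⟮α⟯ c := fun c => (hk' c).symm
  let αM : F⟮α⟯ := IntermediateField.AdjoinSimple.gen F α
  have hαMc : (αM : Sep F) = α := rfl
  have hαM : eval₂ φ αM g = 0 := by
    apply (algebraMap F⟮α⟯ (Sep F)).injective
    rw [map_zero, hom_eval₂]
    have : (algebraMap F⟮α⟯ (Sep F)).comp φ = em k' F (Sep F) := rfl
    rw [this]
    exact hα
  letI : Algebra k'[X] F⟮α⟯ := φ.toAlgebra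
  haveI : IsScalarTower k'[X] F F⟮α⟯ := IsScalarTower.of_algebraMap_eq fun _ => rfl
  haveI : FaithfulSMul k'[X] F⟮α⟯ := by
    rw [faithfulSMul_iff_algebraMap_injective]
    exact (algebraMap F F⟮α⟯).injective.comp (IsFractionRing.injective k'[X] F)
  have hint : IsIntegral k'[X] αM := ⟨g, hg, hαM⟩
  set m := minpoly k'[X] αM with hm
  have hmm : m.Monic := minpoly.monic hint
  have hm0 : eval₂ φ αM m = 0 := minpoly.aeval k'[X] αM
  have hmF : minpoly F αM = m.map (algebraMap k'[X] F) :=
    minpoly.isIntegrallyClosed_eq_field_fractions' F hint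
  have hmg : m ∣ g := minpoly.isIntegrallyClosed_dvd hint hαM
  obtain ⟨b, hb, hxb⟩ := exists_residue φ hφC P a (by rw [← hφC] at *; exact hP) hmm hm0
  have hmsep : (m.map (evalRingHom a)).Separable :=
    Separable.of_dvd hsep ((mapRingHom (evalRingHom a)).map_dvd hmg)
  have hder : (m.map (evalRingHom a)).derivative.eval b ≠ 0 := by
    intro h
    obtain ⟨u, v, huv⟩ := hmsep
    have h1 := congrArg (eval b) huv
    rw [eval_add, eval_mul, eval_mul, hb, h, mul_zero, mul_zero, add_zero, eval_one] at h1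
    exact zero_ne_one h1
  obtain ⟨β, hβ, hβv⟩ := Pool.Agent.Helper35.RG.HEN.main k' F m a b hmm hb hder
  -- the embedding of `F⟮α⟯` in the completion
  have hFint : IsIntegral F α := Algebra.IsIntegral.isIntegral α
  have hmα : minpoly F α = m.map (algebraMap k'[X] F) := by
    rw [← hmF]
    exact (IntermediateField.minpoly_gen F α).symm
  have hβr : β ∈ (minpoly F α).aroots (Comp k'[X] F (pl a)) := by
    rw [mem_aroots]
    refine ⟨minpoly.ne_zero hFint, ?_⟩
    rw [hmα, aeval_def, eval₂_map]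
    exact hβ
  let ψ : F⟮α⟯ →ₐ[F] (Comp k'[X] F (pl a)) := (IntermediateField.algHomAdjoinIntegralEquiv F hFint).symm ⟨β, hβr⟩
  have hψ : ψ αM = β := IntermediateField.algHomAdjoinIntegralEquiv_symm_apply_gen F hFint ⟨β, hβr⟩
  let f : F⟮α⟯ →ₐ[F] Sep (Comp k'[X] F (pl a)) := (IsScalarTower.toAlgHom F (Comp k'[X] F (pl a)) (Sep (Comp k'[X] F (pl a)))).comp ψ
  obtain ⟨ι, hι⟩ : ∃ ι : Sep F →ₐ[F] Sep (Comp k'[X] F (pl a)), ∀ x : F⟮α⟯, ι (x : Sep F) = f x := by
    obtain ⟨ι, hι⟩ := IntermediateField.exists_algHom_of_splits' (E := Sep F) f (fun s => by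
      have hi : IsIntegral F s := Algebra.IsIntegral.isIntegral s
      have hs1 : IsSeparable F s := Algebra.IsSeparable.isSeparable F s
      have hs2 : (minpoly F⟮α⟯ s).Separable := hs1.tower_top F⟮α⟯
      exact ⟨hi.tower_top, IsSepClosed.splits_of_separable _ hs2.map⟩)
    refine ⟨ι, fun x => ?_⟩
    have := DFunLike.congr_fun hι x
    exact this
  -- the square root is in the completion
  have h1 : ι y ∈ Set.range (algebraMap (Comp k'[X] F (pl a)) (Sep (Comp k'[X] F (pl a)))) := by
    rw [InfiniteGalois.mem_range_algebraMap_iff_fixed]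
    intro τ
    obtain ⟨σ, hσ⟩ := exists_restrict (F := F) (Ω := Sep F) (L := Comp k'[X] F (pl a))
      (Ω' := Sep (Comp k'[X] F (pl a))) ι τ
    rw [hσ, hy ι σ ⟨τ, hσ⟩]
  obtain ⟨t, ht⟩ := h1
  have h2 : ψ z = t ^ p := by
    apply inj_alg (E := Sep (Comp k'[X] F (pl a)))
    rw [map_pow, ht, ← map_pow, hyz, hι]
    rfl
  -- the place
  let v : Valuation F⟮α⟯ (WithZero (Multiplicative ℤ)) := (wv (F := F) (pl a)).comap ψ.toRingHom
  have hvF : ∀ q : k'[X], v (φ q) = (pl a).valuation F (algebraMap k'[X] F q) := by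
    intro q
    show wv (pl a) (ψ (algebraMap F F⟮α⟯ (algebraMap k'[X] F q))) = _
    rw [ψ.commutes, wv_coe]
  have htv : v (φ (X - C a)) = WithZero.exp (-1 : ℤ) := by
    rw [hvF, val_poly a (X_sub_C_ne_zero a), rootMultiplicity_X_sub_C_self]
    rfl
  let Q : FF.Place k' F⟮α⟯ := FF.Place.ofVal v ⟨φ (X - C a), htv⟩ (by
    intro c hc
    rw [← hφC, hvF]
    exact val_cst a hc)
  have hQord : ∀ x, Q.ord x = - WithZero.log (v x) := fun x => rfl
  have hQt : 0 < Q.ord (φ X - algebraMap k' F⟮α⟯ a) := by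
    rw [← hφC, ← map_sub, hQord, htv]
    simp
  have hQα : αM = algebraMap k' F⟮α⟯ b ∨ 0 < Q.ord (αM - algebraMap k' F⟮α⟯ b) := by
    by_cases h : αM = algebraMap k' F⟮α⟯ b
    · exact Or.inl h
    · right
      have h0 : αM - algebraMap k' F⟮α⟯ b ≠ 0 := sub_ne_zero.2 h
      have h3 : v (αM - algebraMap k' F⟮α⟯ b) < 1 := by
        show wv (pl a) (ψ (αM - algebraMap k' F⟮α⟯ b)) < 1
        have e : ψ (αM - algebraMap k' F⟮α⟯ b) = β - em k' F (Comp k'[X] F (pl a)) (C b) := by
          rw [map_sub, hψ, ← hφC]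
          congr 1
          exact ψ.commutes _
        rw [e]
        exact hβv
      have h4 : v (αM - algebraMap k' F⟮α⟯ b) ≠ 0 := (Valuation.ne_zero_iff v).2 h0
      rw [hQord]
      have h5 : WithZero.log (v (αM - algebraMap k' F⟮α⟯ b)) < 0 := by
        rw [WithZero.log_lt_iff_lt_exp h4, WithZero.exp_zero]
        exact h3
      omega
  have hinjφ : Function.Injective φ :=
    (algebraMap F F⟮α⟯).injective.comp (IsFractionRing.injective k'[X] F)
  have haev : ∀ p : k'[X], aeval (φ X) p = φ p := by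
    intro p
    have : (aeval (φ X) : k'[X] →ₐ[k'] F⟮α⟯).toRingHom = φ := by
      ext c
      · simp [hφC]
      · simp
    exact DFunLike.congr_fun this p
  have htr : Transcendental k' (φ X) := by
    rw [transcendental_iff]
    intro p hp
    rw [haev] at hp
    exact hinjφ (hp.trans (map_zero φ).symm)
  have htop : IntermediateField.adjoin k' {φ X, αM} = ⊤ := by
    rw [eq_top_iff]
    rintro ⟨x, hx⟩ -
    have hφT : ∀ q : k'[X], φ q ∈ IntermediateField.adjoin k' {φ X, αM} := by
      intro q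
      induction q using Polynomial.induction_on' with
      | add p q hp hq => rw [map_add]; exact add_mem hp hq
      | monomial n c =>
        rw [← C_mul_X_pow_eq_monomial, map_mul, map_pow, hφC]
        exact mul_mem (IntermediateField.algebraMap_mem _ _)
          (pow_mem (IntermediateField.subset_adjoin k' {φ X, αM} (Set.mem_insert _ _)) n)
    refine IntermediateField.adjoin_induction F (E := Sep F) (s := {α})
      (p := fun x hx => (⟨x, hx⟩ : F⟮α⟯) ∈ IntermediateField.adjoin k' {φ X, αM})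
      ?_ ?_ ?_ ?_ ?_ hx
    · intro x hx
      rw [Set.mem_singleton_iff] at hx
      subst hx
      exact IntermediateField.subset_adjoin k' {φ X, αM} (Set.mem_insert_of_mem _ rfl)
    · intro f
      obtain ⟨n, d, hd, rfl⟩ := IsFractionRing.div_surjective (A := k'[X]) f
      have e : (⟨algebraMap F (Sep F) (algebraMap k'[X] F n / algebraMap k'[X] F d),
          IntermediateField.algebraMap_mem _ _⟩ : F⟮α⟯) = φ n / φ d := by
        show algebraMap F F⟮α⟯ _ = _
        rw [map_div₀]
        rfl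
      rw [e]
      exact div_mem (hφT n) (hφT d)
    · intro x y hx hy h1 h2
      exact add_mem h1 h2
    · intro x hx h1
      exact inv_mem h1
    · intro x y hx hy h1 h2
      exact mul_mem h1 h2
  have hu := hUPL k' F⟮α⟯ (φ X) αM htr htop m (by
      have e : eval₂RingHom (algebraMap k' F⟮α⟯) (φ X) = φ := by
        ext c
        · simp [hφC]
        · simp
      show eval₂ (eval₂RingHom (algebraMap k' F⟮α⟯) (φ X)) αM m = 0
      rw [e]
      exact hm0) a b hb hder P (by rw [← hφC] at *; exact hP) hxb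
  have hQP := hu.2 Q hQt hQα
  rw [← hQP, hQord]
  have h6 : v z = wv (pl a) t ^ p := by
    show wv (pl a) (ψ z) = _
    rw [h2, map_pow]
  rw [h6, WithZero.log_pow, nsmul_eq_mul]
  exact (dvd_mul_right _ _).neg_right

end Pool.Agent.Helper10.RL.BRP
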