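import Pool.Agent.Helper55.RL.Spec
import Pool.Agent.Helper35.RG.SUR

/-!
# RL: part CHP (helper10): characters of order `p`
-/

set_option autoImplicit false
set_option linter.all false

open Polynomial IsDedekindDomain NumberField
open scoped Classical

namespace Pool.Agent.Helper10.RL.CHP

open Pool.Agent.TH115.GD Pool.Agent.Helper55.RG Pool.Agent.Helper55.TT Pool.Agent.R939.EI
open Pool.Agent.Helper55.RL

/-- the part without factors of order `p` -/
theorem pfree {k : Type} [Field k] {p : ℕ} (hp : 2 ≤ p) : ∀ (n : ℕ) (m : k[X]), m ≠ 0 →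
    m.natDegree = n → ∃ (u : k) (A h : k[X]), u ≠ 0 ∧ A.Monic ∧ h ≠ 0 ∧
      (∀ q : k[X], Irreducible q → ¬ q ^ p ∣ A) ∧ m = C u * A * h ^ p := by
  intro n
  induction n using Nat.strong_induction_on with
  | _ n ih =>
    intro m hm hn
    by_cases h : ∃ q : k[X], Irreducible q ∧ q ^ p ∣ m
    · obtain ⟨q, hq, m', rfl⟩ := h
      have hm' : m' ≠ 0 := right_ne_zero_of_mul hm
      have hd : m'.natDegree < n := by
        rw [← hn, natDegree_mul (pow_ne_zero _ hq.ne_zero) hm', natDegree_pow]
        have h1 := hq.natDegree_pos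
        have h2 : 0 < p * q.natDegree := Nat.mul_pos (by omega) h1
        omega
      obtain ⟨u, A, h, hu, hA, hh, hf, e⟩ := ih _ hd m' hm' rfl
      exact ⟨u, A, q * h, hu, hA, mul_ne_zero hq.ne_zero hh, hf, by rw [e]; ring⟩
    · push Not at h
      have hl : m.leadingCoeff ≠ 0 := leadingCoeff_ne_zero.2 hm
      refine ⟨m.leadingCoeff, C m.leadingCoeff⁻¹ * m, 1, hl, ?_, one_ne_zero, ?_, ?_⟩
      · rw [mul_comm]
        exact monic_mul_leadingCoeff_inv hm
      · intro q hq hd
        refine h q hq (hd.trans ?_)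
        refine ⟨C m.leadingCoeff, ?_⟩
        rw [mul_right_comm, ← C_mul, inv_mul_cancel₀ hl, C_1, one_mul]
      · rw [one_pow, mul_one, ← mul_assoc, ← C_mul, mul_inv_cancel₀ hl, C_1, one_mul]

/-- powers of the minimal polynomial -/
theorem pow_dvd_of_le {k k' : Type} [Field k] [Field k'] [Algebra k k'] [IsSepClosure k k']
    {θ : k'} : ∀ (n : ℕ) {A : k[X]}, A ≠ 0 → n ≤ rootMultiplicity θ (A.map (algebraMap k k')) →
    minpoly k θ ^ n ∣ A := by
  intro n
  induction n with
  | zero =>
    intro A _ _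
    rw [pow_zero]
    exact one_dvd _
  | succ n ih =>
    intro A hA hn
    have injk := (algebraMap k k').injective
    have hA' : A.map (algebraMap k k') ≠ 0 := (Polynomial.map_ne_zero_iff injk).2 hA
    have h0 : aeval θ A = 0 := by
      by_contra h
      rw [mult_zero h] at hn
      omega
    obtain ⟨B, rfl⟩ := minpoly.dvd k θ h0
    have hB : B ≠ 0 := right_ne_zero_of_mul hA
    have hint : IsIntegral k θ := Algebra.IsSeparable.isIntegral k θ
    have h1 : rootMultiplicity θ ((minpoly k θ).map (algebraMap k k')) = 1 :=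
      mult_one (minpoly.irreducible hint).squarefree (minpoly.aeval k θ)
    rw [Polynomial.map_mul] at hA' hn
    rw [rootMultiplicity_mul hA', h1] at hn
    rw [pow_succ, mul_comm (minpoly k θ ^ n)]
    exact mul_dvd_mul_left _ (ih hB (by omega))

section core

variable {k k' K F : Type} [Field k] [Field k'] [Algebra k k'] [Field K] [Algebra k[X] K]
    [Field F] [Algebra k'[X] F] [IsFractionRing k'[X] F] [Algebra K F]

/-- roots of order `p` which are fixed by the inertia group -/
theorem mult_div (hT : IsTower k k' K F) {p : ℕ} {y : Sep F} {f : k[X]} (hf : f ≠ 0)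
    (hp : p ≠ 0)
    (hy : y ^ p = algebraMap K (Sep F) (algebraMap k[X] K f)) (a : k')
    (ι : Sep F →ₐ[F] Sep (Comp k'[X] F (pl a)))
    (h : ∀ σ : Sep F ≃ₐ[F] Sep F, InI (Comp k'[X] F (pl a)) ι σ → σ y = y) :
    p ∣ rootMultiplicity a (f.map (algebraMap k k')) := by
  have h1 : ι y ∈ Set.range (algebraMap (Comp k'[X] F (pl a)) (Sep (Comp k'[X] F (pl a)))) := by
    rw [InfiniteGalois.mem_range_algebraMap_iff_fixed]
    intro τ
    obtain ⟨σ, hσ⟩ := exists_restrict (F := F) (Ω := Sep F) (L := Comp k'[X] F (pl a))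
      (Ω' := Sep (Comp k'[X] F (pl a))) ι τ
    rw [hσ, h σ ⟨τ, hσ⟩]
  obtain ⟨t, ht⟩ := h1
  have h2 : algebraMap F (Comp k'[X] F (pl a))
      (algebraMap k'[X] F (f.map (algebraMap k k'))) = t ^ p := by
    apply inj_alg (E := Sep (Comp k'[X] F (pl a)))
    rw [← IsScalarTower.algebraMap_apply F (Comp k'[X] F (pl a)), map_pow, ht, ← map_pow, hy,
      IsScalarTower.algebraMap_apply K F (Sep F), hT.map]
    exact (ι.commutes _).symm
  have hf' : f.map (algebraMap k k') ≠ 0 :=
    (Polynomial.map_ne_zero_iff (algebraMap k k').injective).2 hf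
  have h3 : wv (pl a) t ^ p =
      WithZero.exp (-(rootMultiplicity a (f.map (algebraMap k k')) : ℤ)) := by
    rw [← map_pow, ← h2, wv_coe, val_poly a hf']
  have h4 : wv (pl a) t ≠ 0 := by
    intro h4
    rw [h4, zero_pow hp] at h3
    exact WithZero.exp_ne_zero h3.symm
  rw [← WithZero.exp_log h4, ← WithZero.exp_nsmul] at h3
  have h5 := WithZero.exp_injective h3
  have h6 : (p : ℤ) ∣ (rootMultiplicity a (f.map (algebraMap k k')) : ℤ) := by
    rw [← dvd_neg, ← h5, nsmul_eq_mul]
    exact dvd_mul_right _ _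
  exact_mod_cast h6

end core

theorem main (hK : P_KMP) : P_CHP := by
  intro p hpf k k' K F _ _ _ _ _ _ _ _ _ _ hT s π hμ hs hπ hind θ hθ hsθ ι χ hχp hmul S hS hSχ
    hun hD g
  have hp : p.Prime := hpf.out
  haveI := hT.sep
  haveI := hT.fracK
  haveI : IsSepClosed k' := IsSepClosure.sep_closed k
  haveI : CharZero k' := charZero_of_injective_algebraMap (algebraMap k k').injective
  haveI : IsAlgClosed k' := inferInstance
  haveI : IsSepClosure K (Sep F) := sepKΩ hT.map
  haveI : Algebra.IsSeparable K (Sep F) := IsSepClosure.separable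
  haveI : IsGalois K (Sep F) := inferInstance
  have injk := (algebraMap k k').injective
  haveI : CharZero K := charZero_of_injective_algebraMap (IsFractionRing.injective k[X] K)
  haveI : NeZero ((p : ℕ) : k') := ⟨by exact_mod_cast hp.ne_zero⟩
  haveI : NeZero p := ⟨hp.ne_zero⟩
  -- the roots of unity
  have hζ : ∀ ζ : Sep F, ζ ^ p = 1 → ∃ c : K, algebraMap K (Sep F) c = ζ := by
    intro ζ h1
    obtain ⟨z₀, hz₀⟩ := HasEnoughRootsOfUnity.exists_primitiveRoot k' p
    obtain ⟨z₁, rfl⟩ := hμ z₀ hz₀.pow_eq_one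
    have h2 : IsPrimitiveRoot z₁ p := IsPrimitiveRoot.of_map_of_injective hz₀ injk
    let φ : k →+* K := (algebraMap k[X] K).comp C
    have h3 : IsPrimitiveRoot (algebraMap K (Sep F) (φ z₁)) p :=
      (h2.map_of_injective φ.injective).map_of_injective (algebraMap K (Sep F)).injective
    obtain ⟨i, _, hi⟩ := h3.eq_pow_of_pow_eq_one h1
    exact ⟨φ z₁ ^ i, by rw [map_pow]; exact hi⟩
  obtain ⟨z, z0, hz, hχz⟩ := hK p K (Sep F) ⊥ χ (fun ζ h => by
      obtain ⟨c, hc⟩ := hζ ζ h
      exact IntermediateField.mem_bot.2 ⟨c, hc⟩) hχp (fun σ _ τ _ => hmul σ τ) S hS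
      (fun u _ h => hSχ u h)
  obtain ⟨e, he⟩ := IntermediateField.mem_bot.1 hz
  have hχz' : ∀ σ : Sep F ≃ₐ[K] Sep F, σ z = χ σ * z := by
    intro σ
    apply hχz
    rw [IntermediateField.fixingSubgroup_bot]
    trivial
  obtain ⟨f, d, hd, hfd⟩ := IsFractionRing.div_surjective (A := k[X]) e
  have hd0 : d ≠ 0 := nonZeroDivisors.ne_zero hd
  have hdK : algebraMap k[X] K d ≠ 0 := by simpa using hd0
  have hf0 : f ≠ 0 := by
    rintro rfl
    rw [map_zero, zero_div] at hfd
    rw [← hfd, map_zero] at he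
    exact pow_ne_zero p z0 he.symm
  obtain ⟨u, A, h, hu, hA, hh, hfree, hm⟩ := pfree hp.two_le _ (f * d ^ (p - 1))
    (mul_ne_zero hf0 (pow_ne_zero _ hd0)) rfl
  have hhK : algebraMap k[X] K h ≠ 0 := by simpa using hh
  obtain ⟨y, hy⟩ : ∃ y : Sep F, y = z * algebraMap K (Sep F) (algebraMap k[X] K d /
    algebraMap k[X] K h) := ⟨_, rfl⟩
  have hyp : y ^ p = algebraMap K (Sep F) (algebraMap k[X] K (C u * A)) := by
    rw [hy, mul_pow, ← he, ← map_pow, ← map_mul]
    congr 1
    have h1 := congrArg (algebraMap k[X] K) hm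
    rw [map_mul, map_pow, map_mul (algebraMap k[X] K) (C u * A), map_pow] at h1
    rw [← hfd, div_pow, div_mul_div_comm, div_eq_iff (mul_ne_zero hdK (pow_ne_zero _ hhK))]
    have h2 : algebraMap k[X] K d ^ p = algebraMap k[X] K d ^ (p - 1) * algebraMap k[X] K d := by
      rw [← pow_succ, Nat.sub_add_cancel hp.one_le]
    rw [h2]
    linear_combination (algebraMap k[X] K d) * h1
  have hy0 : y ≠ 0 := by
    rw [hy]
    exact mul_ne_zero z0 ((_root_.map_ne_zero _).2 (div_ne_zero hdK hhK))
  have hyχ : ∀ g, g y = χ g * y := by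
    intro g
    rw [hy, map_mul, hχz', g.commutes, mul_assoc]
  have hA0 : A ≠ 0 := hA.ne_zero
  have hCu : (C u : k[X]) ≠ 0 := C_ne_zero.2 hu
  have hCA0 : C u * A ≠ 0 := mul_ne_zero hCu hA0
  have hA0' : A.map (algebraMap k k') ≠ 0 := (Polynomial.map_ne_zero_iff injk).2 hA0
  have hs0' : (s ^ (p - 1)).map (algebraMap k k') ≠ 0 :=
    (Polynomial.map_ne_zero_iff injk).2 (pow_ne_zero _ hs)
  -- `A` divides `s ^ (p - 1)`
  have hmA : ∀ a : k', rootMultiplicity a (A.map (algebraMap k k')) < p := by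
    intro a
    by_contra hle
    rw [not_lt] at hle
    have hint : IsIntegral k a := Algebra.IsSeparable.isIntegral k a
    exact hfree _ (minpoly.irreducible hint) (pow_dvd_of_le p hA0 hle)
  have hmA0 : ∀ a : k', aeval a s ≠ 0 → rootMultiplicity a (A.map (algebraMap k k')) = 0 := by
    intro a ha
    let ι' : Sep F →ₐ[F] Sep (Comp k'[X] F (pl a)) := IsSepClosed.lift
    have h1 : p ∣ rootMultiplicity a ((C u * A).map (algebraMap k k')) := by
      refine mult_div hT hCA0 hp.ne_zero hyp a ι' fun σ hσ => ?_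
      have h2 : χ (σ.restrictScalars K) = 1 := by
        refine hun (pl a) ?_ ι' σ hσ
        show ¬ (s.map (algebraMap k k')) ∈ Ideal.span {X - C a}
        rw [Ideal.mem_span_singleton, dvd_iff_isRoot, IsRoot.def, eval_map_algebraMap]
        exact ha
      have h3 := hyχ (σ.restrictScalars K)
      rw [h2, one_mul] at h3
      exact h3
    have h4 : rootMultiplicity a ((C u * A).map (algebraMap k k')) =
        rootMultiplicity a (A.map (algebraMap k k')) := by
      rw [Polynomial.map_mul, Polynomial.map_C, ← count_roots, ← count_roots,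
        roots_C_mul _ ((_root_.map_ne_zero _).2 hu)]
    rw [h4] at h1
    exact Nat.eq_zero_of_dvd_of_lt h1 (hmA a)
  have hAs : A ∣ s ^ (p - 1) := by
    rw [← Polynomial.map_dvd_map' (algebraMap k k'),
      IsAlgClosed.dvd_iff_roots_le_roots hA0' hs0', Multiset.le_iff_count]
    intro a
    rw [count_roots, Polynomial.map_pow, roots_pow, Multiset.count_nsmul, count_roots]
    by_cases ha : aeval a s = 0
    · have h1 : 0 < rootMultiplicity a (s.map (algebraMap k k')) := by
        rw [rootMultiplicity_pos ((Polynomial.map_ne_zero_iff injk).2 hs), IsRoot.def,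
          eval_map_algebraMap]
        exact ha
      have h2 := hmA a
      calc rootMultiplicity a (A.map (algebraMap k k')) ≤ (p - 1) * 1 := by omega
        _ ≤ (p - 1) * rootMultiplicity a (s.map (algebraMap k k')) :=
          Nat.mul_le_mul_left _ h1
    · rw [hmA0 a ha]
      exact Nat.zero_le _
  have hπA : ¬ π ∣ A := by
    intro h1
    exact hsθ ((dvd_iff_aeval hπ hθ).1 (hπ.prime.dvd_of_dvd_pow (h1.trans hAs)))
  suffices hgy : g y = y by
    have h5 := hyχ g
    rw [hgy] at h5
    apply mul_right_cancel₀ hy0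
    rw [← h5, one_mul]
  by_cases hsq : PwMod p π (C u * A)
  · obtain ⟨rfl, v, hv⟩ := hind u A hu hA hfree hAs hπA hsq
    have hv0 : v ≠ 0 := by
      rintro rfl
      rw [zero_pow hp.ne_zero] at hv
      exact hu hv.symm
    have hvK : algebraMap K (Sep F) (algebraMap k[X] K (C v)) ≠ 0 := by
      have : algebraMap k[X] K (C v) ≠ 0 := by simpa using hv0
      exact (_root_.map_ne_zero _).2 this
    obtain ⟨c, hc⟩ := hζ (y / algebraMap K (Sep F) (algebraMap k[X] K (C v))) (by
      rw [div_pow, hyp, mul_one, ← hv, C_pow, map_pow, map_pow, div_self (pow_ne_zero _ hvK)])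
    have hyc : y = algebraMap K (Sep F) (c * algebraMap k[X] K (C v)) := by
      rw [map_mul, hc, div_mul_cancel₀ _ hvK]
    rw [hyc, g.commutes]
  · haveI : Fact (Irreducible π) := ⟨hπ⟩
    have hirr : Irreducible ((X ^ p - C (C u * A) : k[X][X]).map (AdjoinRoot.mk π)) := by
      rw [Polynomial.map_sub, Polynomial.map_pow, Polynomial.map_X, Polynomial.map_C]
      apply X_pow_sub_C_irreducible_of_prime hp
      intro b hb
      obtain ⟨w, rfl⟩ := AdjoinRoot.mk_surjective b
      apply hsq
      refine ⟨w, ?_⟩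
      rw [← AdjoinRoot.mk_eq_zero, map_sub, map_pow, hb, sub_self]
    obtain ⟨δ, hδ, hδy⟩ := Pool.Agent.Helper35.RG.SUR.main k k' K F hT π θ hπ hθ ι
      (X ^ p - C (C u * A)) (monic_X_pow_sub_C _ hp.ne_zero) hirr y (by
        rw [eval₂_sub, eval₂_pow, eval₂_X, eval₂_C, hyp]
        exact sub_self _) g
    rw [← hδy, hyχ, hD δ hδ, one_mul]

end Pool.Agent.Helper10.RL.CHP
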